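import Pool.Agent.Helper2_TMP.StG
import Pool.Agent.Helper22_DEN4.Asm4

/-!
# Squad TMP, module MVI: the mean value bound at infinity
-/

set_option autoImplicit false

open scoped BigOperators

namespace Pool.Agent.DEN.TMP.H97

open Pool.Agent.DEN Pool.Agent.DEN.H22 Pool.Agent.DEN.H224

theorem pow_le (q D a : ℕ) (hq : 2 ≤ q) (hD : 2 * a + 3 ≤ D) (r : ℕ) :
    (2 + (D : ℝ) / (q : ℝ) ^ (D - 1 - a)) ^ r ≤ 3 ^ r := by
  have hq0 : (0 : ℝ) < q := by
    have : 0 < q := by omega
    exact_mod_cast this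
  have h2 : (D : ℝ) / (q : ℝ) ^ (D - 1 - a) ≤ 1 := by
    rw [div_le_one (by positivity)]
    have h3 : D ≤ 2 ^ (D - 1 - a) := by
      obtain ⟨b, hb⟩ : ∃ b, D - 1 - a = b := ⟨_, rfl⟩
      rw [hb]
      have h4 : D ≤ 2 * b := by omega
      have h5 : ∀ b : ℕ, 2 ≤ b → 2 * b ≤ 2 ^ b := by
        intro b hb
        induction b, hb using Nat.le_induction with
        | base => norm_num
        | succ k hk ih => rw [pow_succ]; omega
      exact h4.trans (h5 b (by omega))
    have h6 : D ≤ q ^ (D - 1 - a) := h3.trans (Nat.pow_le_pow_left hq _)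
    exact_mod_cast h6
  apply pow_le_pow_left₀ (by positivity)
  linarith

theorem mvi : MviStmt := by
  intro r C hC K _ _ hr N hN n f hcusp horth R hR κ hκ lam hlam
  obtain ⟨hκ1, hκ2, hκ3⟩ := hκ
  have hq2 : 2 ≤ Nat.card K := Finite.one_lt_card
  have hone : ∀ j, petersson N (f j) (f j) = 1 := fun j => by rw [horth, if_pos rfl]
  have hS0 : 0 ≤ normSq (maxK C K) κ := finsum_nonneg fun y => by positivity
  have hsup : (Function.support fun y : XX C K => κ y.out).Finite := hκ2
  have hmain := hCn2 r C hC K hr N hN n f hcusp hone (fun j => ‖lam j‖ ^ 2)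
    (fun j => by positivity) (normSq (maxK C K) κ) hS0 (N.natDegree - 1 - 2 * R) ?_
  · refine hmain.trans ?_
    have h1 := pow_le (Nat.card K) N.natDegree (2 * R) hq2 (by omega) r
    exact mul_le_mul_of_nonneg_right (mul_le_mul_of_nonneg_right h1 (Nat.cast_nonneg _)) hS0
  · intro γ hγ l g hg hl
    have h1 := hThi2 r C hC K N hN n f hcusp horth R (by omega) (fun y => κ y.out) hsup ?_ lam ?_
      γ hγ l g hg hl
    · have h2 : ((N.natDegree : ℤ) - 1 - (2 * R : ℕ)) =
          ((N.natDegree - 1 - 2 * R : ℕ) : ℤ) := by omega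
      rw [h2] at h1
      exact h1
    · intro y hy
      have h := hκ3 y.out hy
      exact ⟨y.out, (QuotientGroup.out_eq' y).symm, fun v hv => (h v hv).1,
        fun v hv => (h v hv).2⟩
    · intro j g'
      have h2 : (g' • (QuotientGroup.mk 1 : XX C K)) = pt g' := by
        show (QuotientGroup.mk (g' * 1) : XX C K) = QuotientGroup.mk g'
        rw [mul_one]
      have h3 := eigen_pt hκ1 (hlam j) g' (QuotientGroup.mk 1)
      rw [h2] at h3
      rw [← h3]
      refine finsum_congr fun y => ?_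
      have h4 := out_mul_inv_mem (maxK C K) (1 : grp C K)
      rw [mul_one] at h4
      show κ y.out * f j (g' • y) = κ (((QuotientGroup.mk 1 : XX C K).out)⁻¹ * y.out) *
        f j (g' • y)
      rw [(hκ1 _ h4 y.out).1]

end Pool.Agent.DEN.TMP.H97
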